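import Pool.Agent.helper60.DB.SpecF

/-! Row `bf:ND`: identities for the isogenies of degrees 3 and 5 (discriminant -15). -/

set_option autoImplicit false

namespace Pool.Agent.helper60.DB

open Polynomial Finset Pool.Agent.helper60.DK

theorem ND : ND_stmt := by
  intro R _ f v hf hv
  have hF : (C f : R[X]) ^ 2 = C f + 1 := by
    rw [← C_pow, hf, C_add, C_1]
  have hV : (C v : R[X]) ^ 2 = -3 := by
    rw [← C_pow, hv, C_neg]
    rfl
  refine ⟨⟨?_, ?_, ?_, ?_, ?_⟩, ⟨?_, ?_, ?_, ?_, ?_⟩, ⟨?_, ?_, ?_, ?_, ?_⟩, ⟨?_, ?_, ?_, ?_, ?_⟩⟩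
  · simp
  · simp
  · simp
  · simp only [map_mul, map_add, map_sub, map_neg, map_one, map_ofNat, derivative_mul, derivative_C,
      derivative_X, derivative_one, derivative_X_pow, derivative_ofNat, Nat.cast_ofNat]
    linear_combination (0) * hV + (12*C v*X) * hF
  · simp only [map_mul, map_add, map_sub, map_neg, map_one, map_ofNat, derivative_mul, derivative_C,
      derivative_X, derivative_one, derivative_X_pow, derivative_ofNat, Nat.cast_ofNat]
    linear_combination (144*X^3 + 36864*X^6 - 12288*C v^2*X^6 - 72*C f*X^2 + 48*C f*X^3 - 3456*C f*X^4 - 36864*C f*X^5 + 12288*C f*C v^2*X^5 + 9*C f^2*X - 24*C f^2*X^2 + 1728*C f^2*X^3 + 12672*C f^2*X^4 + 20736*C f^2*X^5 - 4608*C f^2*C v^2*X^4 + 3*C f^3*X - 216*C f^3*X^2 - 1728*C f^3*X^3 - 10368*C f^3*X^4 + 6912*C f^3*X^5 + 768*C f^3*C v^2*X^3 + 72*C f^4*X^2 + 1296*C f^4*X^3 - 3456*C f^4*X^4 - 48*C f^4*C v^2*X^2 + 432*C f^5*X^3) * hV + (- 36*X - 576*X^2 - 4752*X^3 -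 27648*X^4 - 82944*X^5 - 9*C f*X + 432*C f*X^2 + 5616*C f*X^3 + 20736*C f*X^4 - 20736*C f*X^5 - 216*C f^2*X^2 - 5184*C f^2*X^3 - 10368*C f^2*X^4 - 1296*C f^3*X^3) * hF
  · simp
  · simp
  · simp
  · simp only [map_mul, map_add, map_sub, map_neg, map_one, map_ofNat, derivative_mul, derivative_C,
      derivative_X, derivative_one, derivative_X_pow, derivative_ofNat, Nat.cast_ofNat]
    linear_combination (0) * hV + (48*X^2) * hF
  · simp only [map_mul, map_add, map_sub, map_neg, map_one, map_ofNat, derivative_mul, derivative_C,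
      derivative_X, derivative_one, derivative_X_pow, derivative_ofNat, Nat.cast_ofNat]
    linear_combination (0) * hV + (24*X + 1248*X^2 + 32832*X^3 + 490752*X^4 + 4375296*X^5 + 23556096*X^6 + 75644928*X^7 + 138018816*X^8 + 127401984*X^9 + 3*C f*X + 360*C f*X^2 + 18864*C f*X^3 + 367488*C f*X^4 + 3532032*C f*X^5 + 17639424*C f*X^6 + 43462656*C f*X^7 + 39813120*C f*X^8 + 15925248*C f*X^9 + 24*C f^2*X^2 + 4896*C f^2*X^3 + 120960*C f^2*X^4 + 1244160*C f^2*X^5 + 5806080*C f^2*X^6 + 11280384*C f^2*X^7 + 2654208*C f^2*X^8 + 432*C f^3*X^3 + 13824*C f^3*X^4 + 152064*C f^3*X^5 + 663552*C f^3*X^6 + 995328*C f^3*X^7) * hF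
  · simp
  · simp
  · simp
  · simp only [map_mul, map_add, map_sub, map_neg, map_one, map_ofNat, derivative_mul, derivative_C,
      derivative_X, derivative_one, derivative_X_pow, derivative_ofNat, Nat.cast_ofNat]
    linear_combination (0) * hV + (- 12*C v*X) * hF
  · simp only [map_mul, map_add, map_sub, map_neg, map_one, map_ofNat, derivative_mul, derivative_C,
      derivative_X, derivative_one, derivative_X_pow, derivative_ofNat, Nat.cast_ofNat]
    linear_combination (- 12*X - 240*X^2 - 1920*X^3 - 4608*X^4 + 9216*X^5 + 36864*X^6 - 48*C v^2*X^2 - 768*C v^2*X^3 - 4608*C v^2*X^4 - 12288*C v^2*X^5 - 12288*C v^2*X^6 + 27*C f*X + 480*C f*X^2 + 5664*C f*X^3 + 23040*C f*X^4 + 25344*C f*X^5 + 192*C f*C v^2*X^2 + 2304*C f*C v^2*X^3 + 9216*C f*C v^2*X^4 + 12288*C f*C v^2*X^5 - 18*C f^2*X - 240*C f^2*X^2 - 8640*C f^2*X^3 - 39168*C f^2*X^4 - 41472*C f^2*X^5 - 288*C f^2*C v^2*X^2 - 2304*C f^2*C v^2*X^3 - 4608*C f^2*C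 v^2*X^4 + 3*C f^3*X - 72*C f^3*X^2 + 7776*C f^3*X^3 + 24192*C f^3*X^4 + 6912*C f^3*X^5 + 192*C f^3*C v^2*X^2 + 768*C f^3*C v^2*X^3 + 72*C f^4*X^2 - 3456*C f^4*X^3 - 3456*C f^4*X^4 - 48*C f^4*C v^2*X^2 + 432*C f^5*X^3) * hV + (45*X - 360*X^2 + 5616*X^3 - 17280*X^4 + 103680*X^5 - 9*C f*X - 8640*C f*X^3 - 20736*C f*X^5 - 216*C f^2*X^2 + 9072*C f^2*X^3 - 10368*C f^2*X^4 - 1296*C f^3*X^3) * hF
  · simp
  · simp
  · simp
  · simp only [map_mul, map_add, map_sub, map_neg, map_one, map_ofNat, derivative_mul, derivative_C,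
      derivative_X, derivative_one, derivative_X_pow, derivative_ofNat, Nat.cast_ofNat]
    linear_combination (0) * hV + (48*X^2) * hF
  · simp only [map_mul, map_add, map_sub, map_neg, map_one, map_ofNat, derivative_mul, derivative_C,
      derivative_X, derivative_one, derivative_X_pow, derivative_ofNat, Nat.cast_ofNat]
    linear_combination (0) * hV + (- 27*X + 1632*X^2 - 57024*X^3 + 993024*X^4 - 9303552*X^5 + 47665152*X^6 - 131383296*X^7 + 180486144*X^8 - 143327232*X^9 + 3*C f*X - 408*C f*X^2 + 29952*C f*X^3 - 650880*C f*X^4 + 6476544*C f*X^5 - 31242240*C f*X^6 + 69009408*C f*X^7 - 45121536*C f*X^8 + 15925248*C f*X^9 + 24*C f^2*X^2 - 6192*C f^2*X^3 + 162432*C f^2*X^4 - 1700352*C f^2*X^5 + 7796736*C f^2*X^6 - 14266368*C f^2*X^7 + 2654208*C f^2*X^8 + 432*C f^3*X^3 - 13824*C f^3*X^4 + 152064*C f^3*X^5 - 663552*C f^3*X^6 + 995328*C f^3*X^7) * hF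

end Pool.Agent.helper60.DB
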